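import Pool.Agent.Helper35.HS3.GoalsD

/-!
# Project HS3, packet DOUB: doubling for solutions of polynomial growth
-/

namespace Pool.Agent.Helper42.HS3.DOUB

open MeasureTheory Set Filter Topology Metric
open Pool.Agent.Helper35.HS3
open scoped ContDiff

theorem bw_nonneg (r : ℝ) (x : E) : 0 ≤ bw r x := le_max_left _ _

theorem continuous_bw (r : ℝ) : Continuous (bw r) := by unfold bw; fun_prop

theorem bw_eq_zero {r : ℝ} (hr : 0 ≤ r) {x : E} (hx : r ≤ ‖x‖) : bw r x = 0 := by
  unfold bw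
  refine max_eq_left ?_
  nlinarith [norm_nonneg x]

theorem hcs {r : ℝ} (hr : 0 ≤ r) {n : ℕ} (hn : n ≠ 0) (φ : E → ℝ) :
    HasCompactSupport (fun x => φ x * bw r x ^ n) := by
  refine HasCompactSupport.intro (isCompact_closedBall (0 : E) r) fun x hx => ?_
  have : ¬ ‖x‖ ≤ r := by simpa using hx
  simp [bw_eq_zero hr (not_le.1 this).le, hn]

theorem integrable_bw {r : ℝ} (hr : 0 ≤ r) {n : ℕ} (hn : n ≠ 0) {φ : E → ℝ} (hφ : Continuous φ) :
    Integrable (fun x => φ x * bw r x ^ n) :=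
  (hφ.mul ((continuous_bw r).pow n)).integrable_of_hasCompactSupport (hcs hr hn φ)

theorem bw_scale {r : ℝ} (hr : 0 < r) (y : E) : bw r (0 + r • y) = r ^ 2 * kk y := by
  unfold bw kk
  rw [zero_add, norm_smul, Real.norm_eq_abs, abs_of_pos hr, mul_pow,
    mul_max_of_nonneg _ _ (by positivity)]
  congr 1
  · ring
  · ring

theorem int_bw {r : ℝ} (hr : 0 < r) (n : ℕ) :
    ∫ x, bw r x ^ n = r ^ (2 * n + 3) * ∫ y, kk y ^ n := by
  have h := integral_scale (fun x => bw r x ^ n) 0 hr
  simp only [bw_scale hr, mul_pow] at h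
  rw [integral_const_mul] at h
  have hr3 : r ^ 3 ≠ 0 := by positivity
  have h2 : ∫ x, bw r x ^ n = r ^ 3 * ((r ^ 2) ^ n * ∫ y, kk y ^ n) := by
    rw [h, ← mul_assoc, mul_inv_cancel₀ hr3, one_mul]
  rw [h2, ← pow_mul, ← mul_assoc, ← pow_add]
  congr 2
  ring

theorem c3_pos : 0 < ∫ y, kk y ^ 3 := by
  have h : (fun y => kk y ^ 3) 0 ≠ 0 := by
    have : 3 / 4 ≤ kk 0 := kk_ge (by simp)
    have h2 : 0 < kk 0 := by linarith
    simp only
    positivity
  have h3 : Continuous (fun y => kk y ^ 3) := continuous_kk.pow 3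
  have h4 : HasCompactSupport (fun y => kk y ^ 3) :=
    hasCompactSupport_kk.comp_left (g := fun t : ℝ => t ^ 3) (by norm_num)
  exact h3.integral_pos_of_hasCompactSupport_nonneg_nonzero h4
    (fun y => pow_nonneg (kk_nonneg y) 3) h

theorem proof : FQA_stmt → FQH_stmt → FQODE_stmt → DOUB_stmt := by
  intro hFQA hFQH hODE f a A K u C k hNl hu hlap hgr
  have hA := hNl.A_pos
  have hK := hNl.K_pos
  set κ : ℝ := 4800 * A * K with hκ
  have hκpos : 0 < κ := by positivity
  refine ⟨κ, hκpos, 16 ^ (8 + 2 * (2 * k + 9)), by positivity, fun z r hr => ?_⟩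
  set v : E → ℝ := fun x => u (z + x) with hvdef
  have hv : ContDiff ℝ 2 v := hu.comp (contDiff_const.add contDiff_id)
  have hv1 : ContDiff ℝ 1 v := hv.of_le (by norm_num)
  have hlv : ∀ x, lap v x = f (v x) := by
    intro x
    have h := lap_scale hu z 1 x
    simp only [one_smul, one_pow, one_mul] at h
    rw [hvdef, h, hlap]
  set G : E → ℝ := fun x => Fp f a (v x) with hGdef
  have hG1 : ContDiff ℝ 1 G := (hNl.Fp_contDiff.comp hv).of_le (by norm_num)
  have hGpd : ∀ i x, pd i G x = lap v x * pd i v x := by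
    intro i x
    rw [hlv, hGdef]
    exact pd_comp (hasDerivAt_Fp hNl.cont a (v x)) (diff_of_two hv x)
  set c₃ : ℝ := ∫ y, kk y ^ 3 with hc₃
  have hc₃pos : 0 < c₃ := c3_pos
  have hb3 : ∀ s, 0 < s → ∫ x, bw s x ^ 3 = c₃ * s ^ 9 := by
    intro s hs
    rw [int_bw hs 3]; ring
  have hb2 : ∀ s, 0 < s → ∫ x : E, ‖x‖ ^ 2 * bw s x ^ 2 = c₃ * s ^ 9 / 2 := by
    intro s hs
    have h := (hFQA v κ s hv hs).2.1
    rw [hb3 s hs] at h
    linarith
  have i3 : ∀ s, 0 < s → Integrable (fun x : E => bw s x ^ 3) := by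
    intro s hs
    have h := integrable_bw hs.le (n := 3) (by norm_num) (φ := fun _ : E => (1 : ℝ))
      continuous_const
    simpa using h
  have i2 : ∀ s, 0 < s → Integrable (fun x : E => ‖x‖ ^ 2 * bw s x ^ 2) := by
    intro s hs
    exact integrable_bw hs.le (n := 2) (by norm_num) (φ := fun x : E => ‖x‖ ^ 2) (by fun_prop)
  have i0 : ∀ s, 0 < s → Integrable (fun x : E => bw s x ^ 2) := by
    intro s hs
    have h := integrable_bw hs.le (n := 2) (by norm_num) (φ := fun _ : E => (1 : ℝ))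
      continuous_const
    simpa using h
  set C₁ : ℝ := 24 * A * K * c₃ with hC₁
  have hC₁pos : 0 < C₁ := by positivity
  -- the primitive
  have hM : Fp f a A ≤ 2 * A * K := by
    have h1 : Fp f a A ≤ ∫ _ in a..A, K := by
      unfold Fp
      refine intervalIntegral.integral_mono_on (hNl.a_nonpos.trans hA.le)
        (hNl.cont.intervalIntegrable _ _) (continuous_const.intervalIntegrable _ _) ?_
      intro t _
      exact hNl.le_K t
    rw [intervalIntegral.integral_const, smul_eq_mul] at h1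
    have := hNl.neg_A
    nlinarith
  have hG0 : ∀ x, 0 ≤ G x := fun x => hNl.Fp_nonneg _
  have hGM : ∀ x, G x ≤ 2 * A * K := fun x => (hNl.Fp_le _).trans hM
  -- bounds
  have hEE : ∀ s, 0 < s → |EE v s| ≤ C₁ * s ^ 9 := by
    intro s hs
    have hpt : ∀ x, |v x * lap v x * bw s x ^ 3| ≤ A * K * bw s x ^ 3 := by
      intro x
      have hb := pow_nonneg (bw_nonneg s x) 3
      rw [abs_mul, abs_of_nonneg hb, hlv]
      refine mul_le_mul_of_nonneg_right ?_ hb
      by_cases hf : f (v x) = 0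
      · rw [hf]; simp; positivity
      · rw [abs_mul, abs_of_nonneg (hNl.nonneg _)]
        exact mul_le_mul (hNl.abs_le hf) (hNl.le_K _) (hNl.nonneg _) hA.le
    have h1 : |EE v s| ≤ ∫ x, A * K * bw s x ^ 3 := by
      unfold EE
      rw [← Real.norm_eq_abs]
      exact norm_integral_le_of_norm_le ((i3 s hs).const_mul _) (Eventually.of_forall hpt)
    rw [integral_const_mul, hb3 s hs] at h1
    have : A * K * (c₃ * s ^ 9) ≤ C₁ * s ^ 9 := by
      rw [hC₁]
      have : 0 < A * K * c₃ * s ^ 9 := by positivity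
      nlinarith
    linarith
  have hE2 : ∀ s, 0 < s → |E2 G s| ≤ C₁ * s ^ 9 := by
    intro s hs
    have hpt : ∀ x : E, |G x * (6 * bw s x ^ 3 - 12 * ‖x‖ ^ 2 * bw s x ^ 2)| ≤
        2 * A * K * (6 * bw s x ^ 3 + 12 * (‖x‖ ^ 2 * bw s x ^ 2)) := by
      intro x
      have hb3' := pow_nonneg (bw_nonneg s x) 3
      have hb2' : 0 ≤ ‖x‖ ^ 2 * bw s x ^ 2 := by positivity
      rw [abs_mul, abs_of_nonneg (hG0 x)]
      refine mul_le_mul (hGM x) ?_ (abs_nonneg _) (by positivity)
      rw [abs_le]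
      constructor <;> nlinarith
    have h1 : |E2 G s| ≤ ∫ x : E, 2 * A * K * (6 * bw s x ^ 3 + 12 * (‖x‖ ^ 2 * bw s x ^ 2)) := by
      unfold E2
      rw [← Real.norm_eq_abs]
      exact norm_integral_le_of_norm_le
        ((((i3 s hs).const_mul 6).add ((i2 s hs).const_mul 12)).const_mul _)
        (Eventually.of_forall hpt)
    rw [integral_const_mul, integral_add ((i3 s hs).const_mul 6) ((i2 s hs).const_mul 12),
      integral_const_mul, integral_const_mul, hb3 s hs, hb2 s hs] at h1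
    have : 2 * A * K * (6 * (c₃ * s ^ 9) + 12 * (c₃ * s ^ 9 / 2)) = C₁ * s ^ 9 := by
      rw [hC₁]; ring
    linarith
  have hHlow : ∀ s, 0 < s → 100 * C₁ * s ^ 9 ≤ HH v κ s := by
    intro s hs
    have h1 : ∫ x : E, κ * (‖x‖ ^ 2 * bw s x ^ 2) ≤ HH v κ s := by
      unfold HH
      refine integral_mono ((i2 s hs).const_mul _) ?_ fun x => ?_
      · exact integrable_bw hs.le (n := 2) (by norm_num)
          (φ := fun x : E => v x ^ 2 + κ * ‖x‖ ^ 2) (by
            have := hv.continuous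
            fun_prop)
      · have : 0 ≤ v x ^ 2 * bw s x ^ 2 := by positivity
        simp only
        nlinarith
    rw [integral_const_mul, hb2 s hs] at h1
    have : κ * (c₃ * s ^ 9 / 2) = 100 * C₁ * s ^ 9 := by
      rw [hC₁, hκ]; ring
    linarith
  have hIpos : ∀ s, 0 < s → 0 < II v κ s := by
    intro s hs
    have h1 : ∫ x : E, 3 * κ * bw s x ^ 3 ≤ II v κ s := by
      unfold II
      refine integral_mono ((i3 s hs).const_mul _) ?_ fun x => ?_
      · exact integrable_bw hs.le (n := 3) (by norm_num)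
          (φ := fun x : E => gsq v x + 3 * κ) (by
            have := continuous_gsq hv1
            fun_prop)
      · have : 0 ≤ gsq v x * bw s x ^ 3 :=
          mul_nonneg (gsq_nonneg v x) (pow_nonneg (bw_nonneg s x) 3)
        simp only
        nlinarith
    rw [integral_const_mul, hb3 s hs] at h1
    have : 0 < 3 * κ * (c₃ * s ^ 9) := by positivity
    linarith
  have hgrow : ∃ r₀, ∀ s ≥ r₀, HH v κ s ≤
      ((C ^ 2 * (2 + ‖z‖) ^ (2 * k) + κ) * k1) * s ^ (2 * k + 9) := by
    refine ⟨1, fun s hs => ?_⟩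
    have hs1 : 1 ≤ s := hs
    have hs0 : 0 < s := by linarith
    set B : ℝ := C ^ 2 * (2 + ‖z‖) ^ (2 * k) * s ^ (2 * k) + κ * s ^ 2 with hB
    have h1 : HH v κ s ≤ ∫ x : E, B * bw s x ^ 2 := by
      unfold HH
      refine integral_mono ?_ ((i0 s hs0).const_mul _) fun x => ?_
      · exact integrable_bw hs0.le (n := 2) (by norm_num)
          (φ := fun x : E => v x ^ 2 + κ * ‖x‖ ^ 2) (by
            have := hv.continuous
            fun_prop)
      · simp only
        rcases le_total s ‖x‖ with hx | hx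
        · rw [bw_eq_zero hs0.le hx]; simp
        · refine mul_le_mul_of_nonneg_right ?_ (by positivity)
          have hz0 := norm_nonneg z
          have h2 : |v x| ≤ C * ((2 + ‖z‖) * s) ^ k := by
            have h3 := hgr (z + x)
            have hC0 : 0 ≤ C := by
              have h4 := hgr 0
              simp only [norm_zero, add_zero, one_pow, mul_one] at h4
              exact (abs_nonneg _).trans h4
            refine h3.trans (mul_le_mul_of_nonneg_left ?_ hC0)
            refine pow_le_pow_left₀ (by positivity) ?_ k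
            have := norm_add_le z x
            nlinarith
          have h5 : v x ^ 2 ≤ C ^ 2 * (2 + ‖z‖) ^ (2 * k) * s ^ (2 * k) := by
            have h6 : v x ^ 2 ≤ (C * ((2 + ‖z‖) * s) ^ k) ^ 2 := by
              rw [← sq_abs]
              exact pow_le_pow_left₀ (abs_nonneg _) h2 2
            have h7 : (C * ((2 + ‖z‖) * s) ^ k) ^ 2 =
                C ^ 2 * (2 + ‖z‖) ^ (2 * k) * s ^ (2 * k) := by
              rw [mul_pow, mul_pow, mul_pow, ← pow_mul, ← pow_mul, mul_comm k 2]; ring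
            linarith
          have h8 : κ * ‖x‖ ^ 2 ≤ κ * s ^ 2 :=
            mul_le_mul_of_nonneg_left (pow_le_pow_left₀ (norm_nonneg x) hx 2) hκpos.le
          rw [hB]; linarith
    rw [integral_const_mul, int_bw hs0 2] at h1
    have hk1 : ∫ y, kk y ^ 2 = k1 := rfl
    rw [hk1] at h1
    have hk1pos := k1_pos
    have e1 : s ^ (2 * k) * s ^ 7 ≤ s ^ (2 * k + 9) := by
      rw [← pow_add]
      exact pow_le_pow_right₀ hs1 (by omega)
    have e2 : s ^ 2 * s ^ 7 ≤ s ^ (2 * k + 9) := by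
      rw [← pow_add]
      exact pow_le_pow_right₀ hs1 (by omega)
    have hP : 0 ≤ C ^ 2 * (2 + ‖z‖) ^ (2 * k) := by positivity
    calc HH v κ s ≤ B * (s ^ (2 * 2 + 3) * k1) := h1
      _ = (C ^ 2 * (2 + ‖z‖) ^ (2 * k) * (s ^ (2 * k) * s ^ 7) + κ * (s ^ 2 * s ^ 7)) * k1 := by
          rw [hB]; ring
      _ ≤ (C ^ 2 * (2 + ‖z‖) ^ (2 * k) * s ^ (2 * k + 9) + κ * s ^ (2 * k + 9)) * k1 := by
          refine mul_le_mul_of_nonneg_right (add_le_add ?_ ?_) hk1pos.le
          · exact mul_le_mul_of_nonneg_left e1 hP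
          · exact mul_le_mul_of_nonneg_left e2 hκpos.le
      _ = _ := by ring
  have hfin := hODE (HH v κ) (II v κ) (JJ v κ) (EE v) (E2 G) C₁
    ((C ^ 2 * (2 + ‖z‖) ^ (2 * k) + κ) * k1) (2 * k + 9) hC₁pos (by omega)
    (fun s hs => (hFQH v κ s hv hκpos.le hs).1)
    (fun s hs => (hFQH v κ s hv hκpos.le hs).2.2 G hG1 hGpd)
    (fun s hs => (hFQH v κ s hv hκpos.le hs).2.1)
    (fun s hs => ⟨hEE s hs, hE2 s hs, hHlow s hs, hIpos s hs⟩) hgrow
  have h := hfin.2 r (16 * r) hr (by linarith)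
  have e : 16 * r / r = 16 := by field_simp
  rw [e] at h
  exact h

end Pool.Agent.Helper42.HS3.DOUB
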