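import Pool.Agent.Helper35.HS3.GoalsB

/-!
# Project HS3, packet PBD: the gradient bound
-/

namespace Pool.Agent.Helper42.HS3.PBD

open MeasureTheory Set Filter Topology Metric
open Pool.Agent.Helper35.HS3

theorem gsq_le (γ : ℝ) (u : E → ℝ) (x : E) : gsq u x ≤ 2 * γ ^ 2 + 2 * gsub γ u x := by
  unfold gsq gsub
  rw [Fin.sum_univ_three]
  nlinarith [sq_nonneg (pd 0 u x - 2 * γ), sq_nonneg (pd 1 u x), sq_nonneg (pd 2 u x)]

theorem continuous_gsub (γ : ℝ) {u : E → ℝ} (hu : ContDiff ℝ 1 u) : Continuous (gsub γ u) := by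
  unfold gsub
  have h0 : Continuous (pd 0 u) := continuous_pd hu
  have h1 : Continuous (pd 1 u) := continuous_pd hu
  have h2 : Continuous (pd 2 u) := continuous_pd hu
  fun_prop

theorem half (τ γ : ℝ) {u : E → ℝ} (hu : ContDiff ℝ 1 u) {R : ℝ} (hR : 0 ≤ R) :
    ∫ x in Hs τ ∩ ball 0 R, gsq u x ≤
      2 * γ ^ 2 * (v1 * R ^ 3) + 2 * ∫ x in Hs τ ∩ ball 0 R, gsub γ u x := by
  have hc := continuous_gsub γ hu
  have i2 : IntegrableOn (fun x => 2 * gsub γ u x) (Hs τ ∩ ball 0 R) :=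
    integrableOn_Hs_ball (continuous_const.mul hc) τ R
  have i1 : IntegrableOn (fun _ : E => 2 * γ ^ 2) (Hs τ ∩ ball 0 R) :=
    integrableOn_Hs_ball continuous_const τ R
  have h1 : ∫ x in Hs τ ∩ ball 0 R, gsq u x ≤
      ∫ x in Hs τ ∩ ball 0 R, (2 * γ ^ 2 + 2 * gsub γ u x) :=
    setIntegral_mono (integrableOn_Hs_ball (continuous_gsq hu) τ R) (i1.add i2)
      (fun x => gsq_le γ u x)
  rw [integral_add i1 i2, setIntegral_const,
    integral_const_mul (r := 2) (f := fun x => gsub γ u x)] at h1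
  have h2 : volume.real (Hs τ ∩ ball (0 : E) R) ≤ v1 * R ^ 3 := by
    rw [← vol_ball 0 hR]
    exact measureReal_mono inter_subset_right measure_ball_lt_top.ne
  have h3 : volume.real (Hs τ ∩ ball (0 : E) R) • (2 * γ ^ 2) ≤ 2 * γ ^ 2 * (v1 * R ^ 3) := by
    rw [smul_eq_mul, mul_comm]
    exact mul_le_mul_of_nonneg_left h2 (by positivity)
  linarith

theorem split_ball {φ : E → ℝ} (hφ : Continuous φ) (R : ℝ) :
    ∫ x in ball (0 : E) R, φ x =
      (∫ x in Hs 1 ∩ ball 0 R, φ x) + ∫ x in Hs (-1) ∩ ball 0 R, φ x := by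
  have hi : Integrable ((ball (0 : E) R).indicator φ) := by
    rw [integrable_indicator_iff measurableSet_ball]
    exact integrableOn_ball hφ 0 R
  have h := integral_split hi
  rw [integral_indicator measurableSet_ball, setIntegral_indicator measurableSet_ball,
    setIntegral_indicator measurableSet_ball] at h
  exact h

theorem growth {u : E → ℝ} {α β : ℝ} (hu : ContDiff ℝ 1 u) (hG : GBD u α β) :
    ∃ D : ℝ, ∀ R : ℝ, 1 ≤ R → ∫ x in ball (0 : E) R, gsq u x ≤ D * R ^ 3 := by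
  obtain ⟨R₀, hR₀⟩ := hG 1 one_pos
  set D₀ : ℝ := 2 * (α ^ 2 + β ^ 2) * v1 + 2 with hD₀
  have hD₀pos : 0 ≤ D₀ := by
    have := v1_pos
    positivity
  set R₁ : ℝ := max R₀ 1 with hR₁
  have hR₁1 : 1 ≤ R₁ := le_max_right _ _
  have hbig : ∀ R ≥ R₁, ∫ x in ball (0 : E) R, gsq u x ≤ D₀ * R ^ 3 := by
    intro R hR
    have hR0 : 0 ≤ R := by linarith
    have h0 := hR₀ R ((le_max_left _ _).trans hR)
    have h1 := half 1 α hu hR0
    have h2 := half (-1) β hu hR0
    rw [split_ball (continuous_gsq hu) R, hD₀]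
    nlinarith
  refine ⟨D₀ * R₁ ^ 3, fun R hR => ?_⟩
  have hle : R ≤ R * R₁ := by nlinarith
  have hge : R₁ ≤ R * R₁ := by nlinarith
  calc ∫ x in ball (0 : E) R, gsq u x ≤ ∫ x in ball (0 : E) (R * R₁), gsq u x := by
        refine setIntegral_mono_set (integrableOn_ball (continuous_gsq hu) 0 _) ?_ ?_
        · exact Eventually.of_forall fun x => gsq_nonneg u x
        · exact (ball_subset_ball hle).eventuallyLE
    _ ≤ D₀ * (R * R₁) ^ 3 := hbig _ hge
    _ = D₀ * R₁ ^ 3 * R ^ 3 := by ring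

theorem proof : EN2_stmt → SOB_stmt → MEAS_stmt → PBD_stmt := by
  intro hEN2 hSOB hMEAS f a A K u α β hNl hSl hBD hG
  have hu1 : ContDiff ℝ 1 u := hSl.smooth.of_le (by norm_num)
  have key : ∀ k : ℝ, β ^ 2 / 2 < k → ∀ x, PP f a u x ≤ k := by
    intro k hk x
    have hk0 : 0 < k := lt_of_le_of_lt (by positivity) hk
    obtain ⟨m, C, hm1, hm0, hmP, hmg, hen⟩ := hEN2 f a A K u hNl hSl.smooth hSl.eq k hk0
    have hz : ∀ x, m x = 0 := by
      refine hSOB m C 3 hm1 hm0 hen ?_ ?_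
      · obtain ⟨D, hD⟩ := growth hu1 hG
        refine ⟨D / 2, fun R hR => ?_⟩
        have h1 : ∫ x in ball (0 : E) R, m x ^ 2 ≤ ∫ x in ball (0 : E) R, gsq u x / 2 :=
          setIntegral_mono (integrableOn_ball (hm1.continuous.pow 2) 0 R)
            (integrableOn_ball ((continuous_gsq hu1).div_const 2) 0 R) hmg
        rw [integral_div] at h1
        have h2 := hD R hR
        linarith
      · intro ε hε
        obtain ⟨R₀, hR₀⟩ := hMEAS f a A K u α β hNl hSl hBD hG k hk ε hε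
        refine ⟨R₀, fun R hR => ?_⟩
        have h := hR₀ R hR
        have e : {x : E | x ∈ ball (0 : E) R ∧ 0 < m x} =
            {x : E | x ∈ ball (0 : E) R ∧ k < PP f a u x} := by
          ext y
          simp only [mem_ofPred_eq, hmP]
        rw [e]
        exact h
    by_contra hc
    push Not at hc
    have := (hmP x).2 hc
    rw [hz x] at this
    exact lt_irrefl _ this
  intro x
  have h : PP f a u x ≤ β ^ 2 / 2 := le_of_forall_gt_imp_ge_of_dense fun k hk => key k hk x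
  unfold PP at h
  linarith

end Pool.Agent.Helper42.HS3.PBD
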